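import Pool.Agent.Helper47.RFn.GoalsB

/-! RFn PRS: the initial cone is preserved. -/

namespace Pool.Agent.Helper47.RFn

open Finset

namespace PRS93

variable {n : ℕ}

theorem iota_le {ν : Ix n → ℝ} {ι : Ix n → Fin n → ℝ} (h : Iso ν ι) (i : Ix n) (a : Fin n) :
    |ι i a| ≤ 1 := by
  have h1 := h.compl i i
  rw [if_pos rfl] at h1
  have h2 : ι i a * ι i a ≤ ∑ a, ι i a * ι i a :=
    Finset.single_le_sum (f := fun a => ι i a * ι i a) (fun a _ => mul_self_nonneg _)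
      (Finset.mem_univ a)
  have h3 : 0 ≤ ν i * ν i := mul_self_nonneg _
  rw [abs_le_one_iff_mul_self_le_one]
  linarith

theorem abs_sum1 {m : ℕ} {f : Fin m → ℝ} {M : ℝ} (h : ∀ i, |f i| ≤ M) :
    |∑ i, f i| ≤ m * M := by
  refine (Finset.abs_sum_le_sum_abs _ _).trans ?_
  refine (Finset.sum_le_sum fun i _ => h i).trans ?_
  simp

theorem abs_sum4 {m : ℕ} {f : Fin m → Fin m → Fin m → Fin m → ℝ} {M : ℝ}
    (h : ∀ i j k l, |f i j k l| ≤ M) : |∑ i, ∑ j, ∑ k, ∑ l, f i j k l| ≤ (m : ℝ) ^ 4 * M := by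
  have h1 := abs_sum1 fun i => abs_sum1 fun j => abs_sum1 fun k => abs_sum1 fun l => h i j k l
  refine h1.trans (le_of_eq ?_)
  ring

theorem mul4_le {x a b c d ε : ℝ} (hx : |x| ≤ ε) (ha : |a| ≤ 1) (hb : |b| ≤ 1) (hc : |c| ≤ 1)
    (hd : |d| ≤ 1) : |x * a * b * c * d| ≤ ε := by
  rw [abs_mul, abs_mul, abs_mul, abs_mul]
  have h0 := abs_nonneg x
  calc |x| * |a| * |b| * |c| * |d| ≤ |x| * 1 * 1 * 1 * 1 := by gcongr
    _ = |x| := by ring
    _ ≤ ε := hx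

theorem abs_pull_le {ν : Ix n → ℝ} {ι : Ix n → Fin n → ℝ} (h : Iso ν ι) {X : T4 (n + 1)} {M : ℝ}
    (hX : ∀ i j k l, |X i j k l| ≤ M) (a b c d : Fin n) :
    |pull ι X a b c d| ≤ ((n : ℝ) + 1) ^ 4 * M := by
  have h1 : |∑ i, ∑ j, ∑ k, ∑ l, X i j k l * ι i a * ι j b * ι k c * ι l d| ≤
      (((n + 1 : ℕ) : ℝ)) ^ 4 * M := abs_sum4 fun i j k l =>
    mul4_le (hX i j k l) (iota_le h i a) (iota_le h j b) (iota_le h k c) (iota_le h l d)
  rw [Nat.cast_add, Nat.cast_one] at h1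
  exact h1

theorem pull_sub (ι : Ix n → Fin n → ℝ) (X Y : T4 (n + 1)) (a b c d : Fin n) :
    pull ι X a b c d - pull ι Y a b c d = pull ι (fun i j k l => X i j k l - Y i j k l) a b c d := by
  simp only [pull, sub_mul, Finset.sum_sub_distrib]

theorem abs_lam_le (hn : 1 ≤ n) {X : T4 n} {M : ℝ} (hX : ∀ i j k l, |X i j k l| ≤ M) :
    |lam X| ≤ n * M := by
  have hn' : (0 : ℝ) < n := by exact_mod_cast hn
  rw [lam, abs_div, abs_of_pos hn', div_le_iff₀ hn']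
  have h1 := abs_sum1 fun a : Fin n => abs_sum1 fun b : Fin n => hX a b a b
  refine h1.trans (le_of_eq ?_)
  ring

theorem abs_Ric_le {X : T4 n} {M : ℝ} (hX : ∀ i j k l, |X i j k l| ≤ M) (a c : Fin n) :
    |Ric X a c| ≤ n * M := abs_sum1 fun b => hX a b c b

theorem abs_one_le (i j : Fin n) : |(1 : M2 n) i j| ≤ 1 := by
  rw [Matrix.one_apply]
  split_ifs <;> simp

theorem abs_wdg_le {A B : M2 n} {x y : ℝ} (hx : 0 ≤ x) (hA : ∀ i j, |A i j| ≤ x)
    (hB : ∀ i j, |B i j| ≤ y) (a b c d : Fin n) : |wdg A B a b c d| ≤ 2 * (x * y) := by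
  have key : ∀ i j k l, |A i j * B k l| ≤ x * y := fun i j k l => by
    rw [abs_mul]
    exact mul_le_mul (hA i j) (hB k l) (abs_nonneg _) hx
  have h1 := abs_le.1 (key a c b d)
  have h2 := abs_le.1 (key a d b c)
  have h3 := abs_le.1 (key b d a c)
  have h4 := abs_le.1 (key b c a d)
  rw [wdg, abs_le]
  constructor <;> linarith

theorem abs_elli_le (hn : 2 ≤ n) {a b : ℝ} (ha : 0 ≤ a) (hb : 0 ≤ b) (hb2 : b ≤ 1 / 2)
    {X : T4 n} {M : ℝ} (hM : 0 ≤ M) (hX : ∀ i j k l, |X i j k l| ≤ M) (i j k l : Fin n) :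
    |elli a b X i j k l| ≤ 7 * n * M := by
  have hn' : (2 : ℝ) ≤ n := by exact_mod_cast hn
  have hnM : 0 ≤ (n : ℝ) * M := by positivity
  have hl := abs_lam_le (by omega) hX
  have h1 : |2 * a / (1 + 2 * ((n : ℝ) - 1) * a)| ≤ 1 := by
    have hd : 0 < 1 + 2 * ((n : ℝ) - 1) * a := by nlinarith
    rw [abs_of_nonneg (by positivity), div_le_one hd]
    nlinarith
  have h2 : |2 * b / (1 + ((n : ℝ) - 2) * b)| ≤ 1 := by
    have hd : 0 < 1 + ((n : ℝ) - 2) * b := by nlinarith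
    rw [abs_of_nonneg (by positivity), div_le_one hd]
    nlinarith
  have hR0 : ∀ i j, |Ric0 X i j| ≤ 2 * (n * M) := fun i j => by
    have e : Ric0 X i j = Ric X i j - lam X * (1 : M2 n) i j := rfl
    have e1 : |lam X * (1 : M2 n) i j| ≤ n * M := by
      rw [abs_mul]
      calc |lam X| * |(1 : M2 n) i j| ≤ (n * M) * 1 :=
            mul_le_mul hl (abs_one_le i j) (abs_nonneg _) hnM
        _ = n * M := by ring
    rw [e]
    refine (abs_sub _ _).trans ?_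
    have := abs_Ric_le hX i j
    linarith
  have h3 : |Id4 n i j k l| ≤ 2 * (1 * 1) :=
    abs_wdg_le zero_le_one abs_one_le abs_one_le i j k l
  have h4 : |wdg (Ric0 X) 1 i j k l| ≤ 2 * ((2 * (n * M)) * 1) :=
    abs_wdg_le (by positivity) hR0 abs_one_le i j k l
  have e : elli a b X i j k l = X i j k l
      - (2 * a / (1 + 2 * ((n : ℝ) - 1) * a) * lam X) * Id4 n i j k l
      - (2 * b / (1 + ((n : ℝ) - 2) * b)) * wdg (Ric0 X) 1 i j k l := rfl
  have h5 : |(2 * a / (1 + 2 * ((n : ℝ) - 1) * a) * lam X) * Id4 n i j k l| ≤ 1 * (n * M) * 2 := by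
    rw [abs_mul, abs_mul]
    refine mul_le_mul (mul_le_mul h1 hl (abs_nonneg _) zero_le_one) (by linarith) (abs_nonneg _)
      (by positivity)
  have h6 : |(2 * b / (1 + ((n : ℝ) - 2) * b)) * wdg (Ric0 X) 1 i j k l| ≤
      1 * (2 * ((2 * (n * M)) * 1)) := by
    rw [abs_mul]
    exact mul_le_mul h2 h4 (abs_nonneg _) zero_le_one
  have h7 := hX i j k l
  have h8 : M ≤ n * M := by nlinarith
  have h9 := abs_le.1 h5
  have h10 := abs_le.1 h6
  have h11 := abs_le.1 h7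
  rw [e, abs_le]
  constructor <;> linarith

theorem nrm_nonneg (v : Fin n → ℝ) : 0 ≤ nrm v := Finset.sum_nonneg fun i _ => sq_nonneg _

theorem nrm_pos {v : Fin n → ℝ} (hv : v ≠ 0) : 0 < nrm v := by
  obtain ⟨i, hi⟩ : ∃ i, v i ≠ 0 := by
    by_contra h
    push Not at h
    exact hv (funext h)
  exact Finset.sum_pos' (fun i _ => sq_nonneg _) ⟨i, Finset.mem_univ i, by positivity⟩

theorem abs_rq_le {A : M2 n} {M : ℝ} (hM : 0 ≤ M) (hA : ∀ i j, |A i j| ≤ M) (v : Fin n → ℝ) :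
    |rq A v| ≤ n * M * nrm v := by
  have h1 : ∀ i j, |A i j * v i * v j| ≤ M * ((v i ^ 2 + v j ^ 2) / 2) := fun i j => by
    rw [mul_assoc, abs_mul]
    refine mul_le_mul (hA i j) ?_ (abs_nonneg _) hM
    rw [abs_le]
    constructor <;> nlinarith [sq_nonneg (v i + v j), sq_nonneg (v i - v j)]
  have h2 : |rq A v| ≤ ∑ i, ∑ j, M * ((v i ^ 2 + v j ^ 2) / 2) := by
    refine (Finset.abs_sum_le_sum_abs _ _).trans (Finset.sum_le_sum fun i _ => ?_)
    exact (Finset.abs_sum_le_sum_abs _ _).trans (Finset.sum_le_sum fun j _ => h1 i j)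
  refine h2.trans (le_of_eq ?_)
  have h3 : ∀ i, ∑ j, M * ((v i ^ 2 + v j ^ 2) / 2) = M / 2 * (n * v i ^ 2 + nrm v) := fun i => by
    rw [← Finset.mul_sum, ← Finset.sum_div, Finset.sum_add_distrib]
    simp only [Finset.sum_const, Finset.card_univ, Fintype.card_fin, nsmul_eq_mul]
    rw [nrm]
    ring
  rw [Finset.sum_congr rfl fun i _ => h3 i, ← Finset.mul_sum, Finset.sum_add_distrib,
    ← Finset.mul_sum]
  simp only [Finset.sum_const, Finset.card_univ, Fintype.card_fin, nsmul_eq_mul]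
  rw [← nrm]
  ring

theorem qId_nonneg (hCL : Goal_CL) (hRP4 : Goal_RP4) (hn : 1 ≤ n) (z w : Fin n → ℂ) :
    0 ≤ qf (Id4 n) z w := by
  have hc : IsCurv (0 : T4 n) := by
    have h := (hCL n).2.2.2.2.1 0 (Id4 n) (hCL n).2.2.1
    rwa [zero_smul] at h
  have h := (hRP4 n).2.2 0 1 hc (fun a b c d => by
    change |(0 : ℝ)| ≤ 1
    rw [abs_zero]
    exact zero_le_one) z w
  have h1 : 0 ≤ (n : ℝ) ^ 4 * 1 * qf (Id4 n) z w := (abs_nonneg _).trans h
  have hn' : (0 : ℝ) < (n : ℝ) ^ 4 * 1 := by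
    have : (0 : ℝ) < n := by exact_mod_cast hn
    positivity
  exact nonneg_of_mul_nonneg_right h1 hn'

theorem sk_near (hLI : Goal_LI) (hLN : Goal_LN) (hCL : Goal_CL) (hRP4 : Goal_RP4) (hn : 4 ≤ n)
    {a b p s : ℝ} (ha : 0 ≤ a) (hb : 0 ≤ b) (hb2 : b ≤ 1 / 2) (hp : 0 ≤ p) (hp1 : p ≤ 1)
    {r r0 : T4 n} (hr : IsCurv r) (hr0 : IsCurv r0) {M : ℝ}
    (hM : ∀ i j k l, |r i j k l - r0 i j k l| ≤ M)
    (hq : ∀ z w, s * qf (Id4 n) z w ≤ qf (elli a b r0) z w)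
    (hq' : ∀ v, (p * lam (elli a b r0) + s) * nrm v ≤ rq (Ric (elli a b r0)) v)
    (hsm : ((n : ℝ) ^ 4 + (n : ℝ) ^ 2 + n) * (7 * n * M) < s) : SK a b p r := by
  have hM0 : 0 ≤ M := (abs_nonneg _).trans (hM ⟨0, by omega⟩ ⟨0, by omega⟩ ⟨0, by omega⟩
    ⟨0, by omega⟩)
  have hn' : (4 : ℝ) ≤ n := by exact_mod_cast hn
  obtain ⟨d, hd⟩ : ∃ d, d = r - r0 := ⟨_, rfl⟩
  have hrd : r = r0 + d := by rw [hd, add_sub_cancel]
  have hdc : IsCurv d := by
    rw [hd]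
    exact (hCL n).2.2.2.2.2.1 r r0 hr hr0
  have hdM : ∀ i j k l, |d i j k l| ≤ M := fun i j k l => by
    rw [hd]
    exact hM i j k l
  have hl := hLI n (by omega) a b ha hb r0
  have he : elli a b r = elli a b r0 + elli a b d := by
    rw [hrd]
    exact hl.2.2.2.2.2.2.1 d
  obtain ⟨e, hee⟩ : ∃ e, e = elli a b d := ⟨_, rfl⟩
  have hec : IsCurv e := by
    rw [hee]
    exact ((hCL n).2.2.2.2.2.2.2.1 a b d hdc).2.1
  have heM : ∀ i j k l, |e i j k l| ≤ 7 * n * M := fun i j k l => by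
    rw [hee]
    exact abs_elli_le (by omega) ha hb hb2 hM0 hdM i j k l
  rw [← hee] at he
  have hM' : 0 ≤ 7 * (n : ℝ) * M := by positivity
  obtain ⟨M', hMM⟩ : ∃ M', M' = 7 * (n : ℝ) * M := ⟨_, rfl⟩
  rw [← hMM] at hM' hsm
  have heM2 : ∀ i j k l, |e i j k l| ≤ M' := fun i j k l => by
    rw [hMM]
    exact heM i j k l
  have hn4 : 0 ≤ (n : ℝ) ^ 4 * M' := by positivity
  have hn2 : 0 ≤ (n : ℝ) ^ 2 * M' := by positivity
  have hn1 : 0 ≤ (n : ℝ) * M' := by positivity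
  refine ⟨hr, fun z w hz => ?_, fun v hv => ?_⟩
  · rw [he, (hLN n).1]
    have h1 := abs_le.1 ((hRP4 n).2.2 e M' hec heM2 z w)
    have h2 := hq z w
    have h3 : ((n : ℝ) ^ 4 * M') * qf (Id4 n) z w < s * qf (Id4 n) z w :=
      mul_lt_mul_of_pos_right (by linarith) hz
    linarith [h1.1]
  · have hv' := nrm_pos hv
    rw [he, (hLN n).2.2.1, (hLN n).2.2.2.2.1, (hLN n).2.2.2.2.2.2.2.2.2.2.2.1]
    have h1 := hq' v
    have h2 := abs_le.1 (abs_rq_le (by positivity) (abs_Ric_le heM2) v)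
    have h3 := abs_le.1 (abs_lam_le (by omega) heM2)
    have h4 : p * lam e ≤ n * M' := by nlinarith
    have h5 : (n * (n * M') + n * M') * nrm v < s * nrm v := by
      refine mul_lt_mul_of_pos_right ?_ hv'
      nlinarith
    have h6 : p * lam e * nrm v ≤ n * M' * nrm v := mul_le_mul_of_nonneg_right h4 hv'.le
    nlinarith [h2.1]

theorem ev_lam {T : ℝ} (F : FB n T) (z : F.Z) (t : TI T) :
    F.ev z t F.lam = (∑ a, Ric (F.rv z t) a a) / n := by
  have h : ∀ a, F.ev z t (F.Ric a a) = Ric (F.rv z t) a a := fun a => by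
    rw [FB.Ric, map_sum]
    rfl
  rw [FB.lam, map_smul, map_sum, smul_eq_mul, Finset.sum_congr rfl fun a _ => h a]
  ring

theorem ev_nunu {T : ℝ} {F : FB n T} (hF : F.Base) (z : F.Z) (t : TI T) :
    ∑ i, F.nv z t i ^ 2 = 1 := by
  have h := congrArg (F.ev z t) hF.nunu
  rw [map_sum, map_one] at h
  rw [← h]
  refine Finset.sum_congr rfl fun i _ => ?_
  rw [map_pow]
  rfl

theorem Hop_sub_const {T : ℝ} (F : FB n T) (f : F.B) (c : ℝ) :
    F.Hop (f - algebraMap ℝ F.B c) = F.Hop f := by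
  simp only [FB.Hop, FB.Lap, map_sub, Derivation.map_algebraMap, sub_zero]

end PRS93

open PRS93 in
theorem goal_PRS (hINV : Goal_INV) (hMP1 : Goal_MP1) (hSA : Goal_SA) (hG1 : Goal_G1)
    (hBD : Goal_BD) (hRP1 : Goal_RP1) (hRP2 : Goal_RP2) (_hRP3 : Goal_RP3) (hRP4 : Goal_RP4)
    (hLI : Goal_LI) (hLN : Goal_LN) (hCL : Goal_CL) (hEVS : Goal_EVS) (hRIC : Goal_RIC) :
    Goal_PRS := by
  intro n hn δ hδ hδ1
  have hn' : (4 : ℝ) ≤ n := by exact_mod_cast hn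
  obtain ⟨b0, hb0, hb02, c1, hc1, hS⟩ := hSA n hn δ hδ hδ1
  obtain ⟨c, hc, hgood⟩ := hG1 n hn b0 hb0 hb02
  have hg := hgood b0 le_rfl hb02
  obtain ⟨C0, hC0, hbd⟩ := hBD n hn
  refine ⟨b0, (n : ℝ) ^ 4 * C0, hb0, hb02, by positivity, ?_⟩
  intro T F hF hRF l0 hl0 hI
  have hHor : ∀ z t, Hor (F.nv z t) (F.rv z t) := (hRIC n T F hF).2.2.2.2.2.1
  have hlam : ∀ z t ι, Iso (F.nv z t) ι → lam (pull ι (F.rv z t)) = F.ev z t F.lam := by
    intro z t ι hι
    rw [ev_lam, (hRP2 n _ ι _ hι (hHor z t)).2.2.2.2.1]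
  -- (i)
  have hl : ∀ z t, l0 ≤ F.ev z t F.lam := by
    intro z t
    have hT : (t : ℝ) < T := t.2.2
    have h := hMP1 n T F hF.toBase (F.lam - algebraMap ℝ F.B l0) 0 t 0 1 le_rfl hT le_rfl
      one_pos ?_ ?_ z t t.2.1 le_rfl
    · rw [map_sub, AlgHom.commutes] at h
      have h' : (algebraMap ℝ ℝ l0 : ℝ) = l0 := rfl
      rw [h'] at h
      linarith
    · intro ε hε
      obtain ⟨t0, ht0, -, hT0⟩ := hI (ε / ((n : ℝ) + 1) ^ 2) (by positivity)
      refine ⟨t0, ht0, fun z t _ ht => ?_⟩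
      rw [zero_add] at ht
      obtain ⟨T0, hH, hP, hcl⟩ := hT0 z t ht
      obtain ⟨ι, hι⟩ := hRP1 n _ (ev_nunu hF.toBase z t)
      have h1 := (hP ι hι).2
      rw [(hRP2 n _ ι _ hι hH).2.2.2.2.1] at h1
      have h2 : |∑ a, ∑ b, (F.rv z t a b a b - T0 a b a b)| ≤
          ((n + 1 : ℕ) : ℝ) * (((n + 1 : ℕ) : ℝ) * (ε / ((n : ℝ) + 1) ^ 2)) :=
        abs_sum1 fun a => abs_sum1 fun b => hcl a b a b
      have h3 : ((n + 1 : ℕ) : ℝ) * (((n + 1 : ℕ) : ℝ) * (ε / ((n : ℝ) + 1) ^ 2)) = ε := by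
        push_cast
        field_simp
      rw [h3] at h2
      have h4 : (∑ a, ∑ b, (F.rv z t a b a b - T0 a b a b)) =
          (∑ a, Ric (F.rv z t) a a) - ∑ a, Ric T0 a a := by
        rw [← Finset.sum_sub_distrib]
        refine Finset.sum_congr rfl fun a _ => ?_
        rw [Ric, Ric, Finset.sum_sub_distrib]
      rw [h4] at h2
      have h5 := (abs_le.1 h2).1
      rw [map_sub, AlgHom.commutes, ev_lam]
      have h' : (algebraMap ℝ ℝ l0 : ℝ) = l0 := rfl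
      rw [h']
      have hn0 : (0 : ℝ) < n := by linarith
      rw [le_div_iff₀ hn0] at h1
      have h6 : l0 - ε ≤ (∑ a, Ric (F.rv z t) a a) / n := by
        rw [le_div_iff₀ hn0]
        nlinarith
      linarith
    · intro z t _ _ _ _ _
      rw [zero_mul, Hop_sub_const, (hEVS n T F (by omega) hF hRF).1, map_smul, map_sum,
        smul_eq_mul]
      refine mul_nonneg (by positivity) (Finset.sum_nonneg fun a _ => ?_)
      rw [map_sum]
      refine Finset.sum_nonneg fun b _ => ?_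
      rw [map_pow]
      exact sq_nonneg _
  -- (ii)
  have hev0 : ∀ z t, F.ev z t (0 : F.B) • Id4 n = 0 := fun z t => by rw [map_zero, zero_smul]
  have hK : ∀ z t ι, Iso (F.nv z t) ι → Kc (aF n b0) b0 (pF n b0) (pull ι (F.rv z t)) := by
    have h := hINV n hn (aF n b0) b0 (pF n b0) c 1 hg le_rfl T F hF hRF 0
      (fun a => map_zero _) (by rw [map_zero]; simp) (fun z t => by rw [map_zero])
      (fun z t => hl0.trans_le (hl z t)) ?_ ?_
    · intro z t ι hι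
      have h1 := h z t ι hι
      rwa [hev0, add_zero] at h1
    · obtain ⟨ε, hε, hεs⟩ : ∃ ε > 0, ((n : ℝ) ^ 4 + (n : ℝ) ^ 2 + n) *
          (7 * n * (((n : ℝ) + 1) ^ 4 * ε)) < c1 * l0 := by
        have hpos : 0 < ((n : ℝ) ^ 4 + (n : ℝ) ^ 2 + n) * (7 * n * ((n : ℝ) + 1) ^ 4) := by
          positivity
        refine ⟨c1 * l0 / 2 / (((n : ℝ) ^ 4 + (n : ℝ) ^ 2 + n) * (7 * n * ((n : ℝ) + 1) ^ 4)),
          by positivity, ?_⟩
        have e : ((n : ℝ) ^ 4 + (n : ℝ) ^ 2 + n) * (7 * n * (((n : ℝ) + 1) ^ 4 *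
            (c1 * l0 / 2 / (((n : ℝ) ^ 4 + (n : ℝ) ^ 2 + n) * (7 * n * ((n : ℝ) + 1) ^ 4))))) =
            c1 * l0 / 2 := by
          have := hpos.ne'
          field_simp
        rw [e]
        have : 0 < c1 * l0 := by positivity
        linarith
      obtain ⟨t0, ht0, htT, hT0⟩ := hI ε hε
      refine ⟨t0, ht0, htT, fun z t ht ι hι => ?_⟩
      rw [hev0, add_zero]
      obtain ⟨T0, hH, hP, hcl⟩ := hT0 z t ht
      obtain ⟨hPi, hlT⟩ := hP ι hι
      have hr := (hRP2 n _ ι _ hι (hHor z t)).1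
      have hr0 := (hRP2 n _ ι _ hι hH).1
      obtain ⟨hs1, hs2, hs3⟩ := hS (pull ι T0) hr0 hPi
      refine sk_near hLI hLN hCL hRP4 hn hg.ha hg.hb hb02 hg.hp hg.hp1.le (s := c1 * l0) hr hr0
        (M := ((n : ℝ) + 1) ^ 4 * ε) ?_ ?_ ?_ hεs
      · intro i j k l
        rw [pull_sub]
        exact abs_pull_le hι hcl i j k l
      · intro z w
        refine le_trans ?_ (hs2 z w)
        exact mul_le_mul_of_nonneg_right (mul_le_mul_of_nonneg_left hlT hc1.le)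
          (qId_nonneg hCL hRP4 (by omega) z w)
      · intro v
        refine le_trans ?_ (hs3 v)
        exact mul_le_mul_of_nonneg_right (by nlinarith) (nrm_nonneg v)
    · intro z t ι hι h
      exfalso
      rw [hev0, add_zero, map_zero, mul_zero] at h
      have h1 := (hLI n (by omega) (aF n b0) b0 hg.ha hg.hb (pull ι (F.rv z t))).2.2.2.2.1
      rw [h1, hlam z t ι hι] at h
      have h2 : 0 < F.ev z t F.lam := hl0.trans_le (hl z t)
      have h3 : 0 < 1 + 2 * ((n : ℝ) - 1) * aF n b0 := by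
        have := hg.ha
        nlinarith
      have h4 : 0 < c * (F.ev z t F.lam / (1 + 2 * ((n : ℝ) - 1) * aF n b0)) := by positivity
      linarith
  refine ⟨fun z t => ⟨hl z t, fun i j k l => ?_⟩, hK⟩
  obtain ⟨ι, hι⟩ := hRP1 n _ (ev_nunu hF.toBase z t)
  have h1 := (hbd _ _ _ _ hg.ha hg.hb hb02 (hK z t ι hι)).2
  rw [hlam z t ι hι] at h1
  have h2 := (hRP2 n _ ι _ hι (hHor z t)).2.1 i j k l
  have h3 : |∑ a, ∑ b, ∑ c, ∑ d, pull ι (F.rv z t) a b c d * ι i a * ι j b * ι k c * ι l d| ≤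
      (n : ℝ) ^ 4 * (C0 * F.ev z t F.lam) := abs_sum4 fun a b c d =>
    mul4_le (h1 a b c d) (iota_le hι i a) (iota_le hι j b) (iota_le hι k c) (iota_le hι l d)
  rw [← h2] at h3
  refine h3.trans (le_of_eq ?_)
  ring

end Pool.Agent.Helper47.RFn
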