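import Pool.Agent.Helper47.RFn.Alg

/-!
# Project RFn, packet SQ: the square part of the reaction term
-/

set_option autoImplicit false

namespace Pool.Agent.Helper47.RFn

open Finset

theorem sq_aux {n : ℕ} {R : T4 n} (h : IsCurv R) (c d e f : Fin n) :
    R c e d f - R d e c f = R c d e f := by
  have h1 := h.bian c e d f
  have h2 := h.a12 e d c f
  have h3 := h.a12 d c e f
  linarith

/-- SQ. -/
theorem goal_SQ : Goal_SQ := by
  intro n R h a b c d
  have h1 : BB R R a b c d - BB R R a b d c = ∑ e, ∑ f, R a e b f * R c d e f := by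
    unfold BB
    rw [← Finset.sum_sub_distrib]
    refine Finset.sum_congr rfl fun e _ => ?_
    rw [← Finset.sum_sub_distrib]
    refine Finset.sum_congr rfl fun f _ => ?_
    rw [← sq_aux h c d e f]
    ring
  have h2 : ∑ e, ∑ f, R a e b f * R c d e f = -∑ e, ∑ f, R a f b e * R c d e f := by
    rw [Finset.sum_comm, ← Finset.sum_neg_distrib]
    refine Finset.sum_congr rfl fun e _ => ?_
    rw [← Finset.sum_neg_distrib]
    refine Finset.sum_congr rfl fun f _ => ?_
    rw [h.a34 c d f e]
    ring
  have h3 : ∑ e, ∑ f, R a b e f * R c d e f =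
      ∑ e, ∑ f, R a e b f * R c d e f - ∑ e, ∑ f, R a f b e * R c d e f := by
    rw [← Finset.sum_sub_distrib]
    refine Finset.sum_congr rfl fun e _ => ?_
    rw [← Finset.sum_sub_distrib]
    refine Finset.sum_congr rfl fun f _ => ?_
    rw [← sq_aux h a b e f, h.pair a f b e]
    ring
  rw [h1]
  linarith

end Pool.Agent.Helper47.RFn
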